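import Pool.Agent.W2helper8.ZQ.Stm

/-!
# Project ZQ, piece MAIN: positivity of the constant
-/

set_option autoImplicit false

namespace Pool.Agent.W2helper56.ZQ

open Finset Filter Topology MeasureTheory Complex
open Pool.Agent.H306R2 (dv lc)
open Pool.Agent.W2helper8.ZQ

lemma dv_zero {n : ℕ} (hn : n ≠ 1) : dv 0 n = 0 := by
  unfold dv
  split_ifs with h0
  · rfl
  · obtain ⟨p, hp, hpn⟩ := Nat.exists_prime_and_dvd hn
    rw [Finsupp.prod]
    have hmem : p ∈ n.factorization.support := by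
      rw [Nat.support_factorization, Nat.mem_primeFactors]
      exact ⟨hp, hpn, h0⟩
    refine Finset.prod_eq_zero hmem ?_
    have he : n.factorization p ≠ 0 := Finsupp.mem_support_iff.mp hmem
    unfold lc
    refine Finset.prod_eq_zero (i := 0) (Finset.mem_range.mpr (Nat.pos_of_ne_zero he)) ?_
    simp

lemma dv_zero_one : dv 0 1 = 1 := by simp [dv]

lemma cc_one : cc 1 = 1 := by
  unfold cc
  have H : ∃ p : ℕ × ℕ, 0 < p.1 ∧ 0 < p.2 ∧ Nat.Coprime p.1 p.2 ∧ (1 : ℝ) = p.1 / p.2 :=
    ⟨(1, 1), by simp⟩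
  rw [dif_pos H]
  obtain ⟨h1, h2, h3, h4⟩ := H.choose_spec
  have h5 : ((H.choose.2 : ℕ) : ℝ) ≠ 0 := by exact_mod_cast h2.ne'
  have h6 : ((H.choose.1 : ℕ) : ℝ) = H.choose.2 := by
    field_simp at h4
    exact h4.symm
  have h7 : H.choose.1 = H.choose.2 := by exact_mod_cast h6
  rw [h7, Nat.coprime_self] at h3
  rw [h7, h3]
  simp

lemma DD_zero (a : ℝ) {N : ℕ} (hN : 1 ≤ N) : DD 0 a N = 1 := by
  unfold DD
  have h1 : (1 : ℕ) ∈ Icc 1 N := Finset.mem_Icc.mpr ⟨le_rfl, hN⟩
  rw [Finset.sum_eq_single_of_mem 1 h1, Finset.sum_eq_single_of_mem 1 h1]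
  · rw [dv_zero_one]
    simp [cc_one]
  · intro n _ hn
    rw [dv_zero hn]
    simp
  · intro m _ hm
    refine Finset.sum_eq_zero fun n _ => ?_
    rw [dv_zero hm]
    simp

theorem p_main (h : S_LIM) : S_MAIN := by
  intro a β ha hβ
  obtain ⟨D, hD0, hD1, hD2⟩ := h (-β) a ha
  obtain ⟨E, hE0, -, hE2⟩ := h β a ha
  obtain ⟨F, -, hF1, hF2⟩ := h 0 a ha
  have hF : F = 1 := by
    refine tendsto_nhds_unique hF1 ?_
    refine tendsto_const_nhds.congr' ?_
    filter_upwards [eventually_ge_atTop 1] with N hN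
    exact (DD_zero a hN).symm
  have hcont : ∀ (b : ℝ) (T : ℝ), 0 < T → ContinuousOn
      (fun t : ℝ => Z2 t * (‖riemannZeta (1 + a * t * I)‖ ^ b) ^ 2) (Set.uIcc T (2 * T)) := by
    intro b T hT t ht
    rw [Set.uIcc_of_le (by linarith)] at ht
    have ht0 : 0 < t := lt_of_lt_of_le hT ht.1
    exact (Z2_cont.continuousAt.mul ((zpow_contAt b ha ht0).pow 2)).continuousWithinAt
  have hpos : 0 < D := by
    rcases hD0.lt_or_eq with h0 | h0
    · exact h0
    exfalso
    -- the inequality between the three integrals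
    have key : ∀ᶠ T : ℝ in atTop,
        2 * ((∫ t in T..(2 * T), Z2 t * (‖riemannZeta (1 + a * t * I)‖ ^ (0 : ℝ)) ^ 2) /
          (T * Real.log T)) ≤
        (E + 1) * ((∫ t in T..(2 * T), Z2 t * (‖riemannZeta (1 + a * t * I)‖ ^ (-β)) ^ 2) /
          (T * Real.log T)) +
        (E + 1)⁻¹ * ((∫ t in T..(2 * T), Z2 t * (‖riemannZeta (1 + a * t * I)‖ ^ β) ^ 2) /
          (T * Real.log T)) := by
      filter_upwards [eventually_gt_atTop 1] with T hT
      have hT0 : 0 < T := by linarith
      have hL : 0 < T * Real.log T := mul_pos hT0 (Real.log_pos hT)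
      rw [← mul_div_assoc, ← mul_div_assoc, ← mul_div_assoc, ← add_div]
      apply div_le_div_of_nonneg_right _ hL.le
      rw [← intervalIntegral.integral_const_mul, ← intervalIntegral.integral_const_mul,
        ← intervalIntegral.integral_const_mul, ← intervalIntegral.integral_add]
      · apply intervalIntegral.integral_mono_on (by linarith)
        · exact ((hcont 0 T hT0).const_mul 2).intervalIntegrable
        · exact (((hcont (-β) T hT0).const_mul (E + 1)).add
            ((hcont β T hT0).const_mul (E + 1)⁻¹)).intervalIntegrable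
        · intro t ht
          have hE1 : 0 < E + 1 := by linarith
          have hz : 0 < ‖riemannZeta (1 + a * t * I)‖ := norm_pos_iff.mpr (Zeta1_ne a t)
          set z := ‖riemannZeta (1 + a * t * I)‖ with hzdef
          have h1 : z ^ (-β) * z ^ β = 1 := by
            rw [← Real.rpow_add hz, neg_add_cancel, Real.rpow_zero]
          rw [Real.rpow_zero]
          have h2 : 0 ≤ (E + 1) * (z ^ (-β) - (E + 1)⁻¹ * z ^ β) ^ 2 := by positivity
          have h3 : (E + 1) * (z ^ (-β) - (E + 1)⁻¹ * z ^ β) ^ 2 =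
              (E + 1) * (z ^ (-β)) ^ 2 - 2 * (z ^ (-β) * z ^ β) + (E + 1)⁻¹ * (z ^ β) ^ 2 := by
            field_simp
            ring
          rw [h3, h1] at h2
          have h4 := mul_nonneg (Z2_nonneg t) h2
          nlinarith [h4]
      · exact ((hcont (-β) T hT0).const_mul (E + 1)).intervalIntegrable
      · exact ((hcont β T hT0).const_mul (E + 1)⁻¹).intervalIntegrable
    have hlim := le_of_tendsto_of_tendsto (hF2.const_mul 2)
      ((hD2.const_mul (E + 1)).add (hE2.const_mul (E + 1)⁻¹)) key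
    rw [hF, ← h0, mul_zero, zero_add] at hlim
    have hE1 : 0 < E + 1 := by linarith
    have h5 : (E + 1)⁻¹ * E ≤ 1 := by
      rw [inv_mul_le_iff₀ hE1]
      linarith
    linarith
  refine ⟨D, hpos, hD1, ?_⟩
  refine hD2.congr fun T => ?_
  congr 1
  refine intervalIntegral.integral_congr fun t _ => ?_
  rw [Z2, Real.rpow_neg (norm_nonneg _), div_pow, inv_pow]
  exact (div_eq_mul_inv _ _).symm

end Pool.Agent.W2helper56.ZQ
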